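import Pool.Agent.H185.OC.Step

set_option autoImplicit false

namespace Pool.Agent.H185.OC

open Finset

open Classical in
/-- **Averaging.** For every nonnegative weight some injective code has at most the average
weight. -/
theorem exists_code (m d : ℕ) (hm : 2 ≤ m) (hd : 1 ≤ d) (h : V d m → ℝ) (h0 : ∀ v, 0 ≤ h v) :
    ∃ f : L d →ₗ[ZMod 2] V d m, Function.Injective f ∧
      (∑ c ∈ Finset.univ.filter (fun c : L d => c ≠ 0), h (f c)) * (2 ^ (m * d) - 1) ≤
        (2 ^ (d + 1) - 1) * ∑ v, h v := by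
  have hN : m * d ≠ 0 := by positivity
  let F := GaloisField 2 (m * d)
  have : Finite F := inferInstance
  have : Fintype F := Fintype.ofFinite F
  have hF : Module.finrank (ZMod 2) F = m * d := GaloisField.finrank 2 hN
  have hcF : Fintype.card F = 2 ^ (m * d) := by
    rw [← Nat.card_eq_fintype_card]
    exact GaloisField.card 2 (m * d) hN
  have hV : Module.finrank (ZMod 2) (V d m) = m * d := by
    rw [Module.finrank_pi_fintype]
    simp [mul_comm]
  let e : F ≃ₗ[ZMod 2] V d m := LinearEquiv.ofFinrankEq F (V d m) (by rw [hF, hV])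
  have hLF : d + 1 ≤ Module.finrank (ZMod 2) F := by
    rw [hF]
    nlinarith
  obtain ⟨f0, hf0⟩ : ∃ f0 : L d →ₗ[ZMod 2] F, Function.Injective f0 := by
    obtain ⟨v, hv⟩ := exists_linearIndependent_of_le_finrank hLF
    exact ⟨Fintype.linearCombination (ZMod 2) v, hv.fintypeLinearCombination_injective⟩
  let fl : F → L d →ₗ[ZMod 2] V d m := fun a =>
    (e : F →ₗ[ZMod 2] V d m).comp ((LinearMap.mulLeft (ZMod 2) a).comp f0)
  have hfl : ∀ a c, fl a c = e (a * f0 c) := fun a c => rfl
  -- double counting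
  have hsum : ∑ a ∈ Finset.univ.filter (fun a : F => a ≠ 0),
      ∑ c ∈ Finset.univ.filter (fun c : L d => c ≠ 0), h (fl a c) =
      (2 ^ (d + 1) - 1) * ∑ u ∈ Finset.univ.filter (fun u : F => u ≠ 0), h (e u) := by
    rw [Finset.sum_comm]
    have h1 : ∀ c ∈ Finset.univ.filter (fun c : L d => c ≠ 0),
        ∑ a ∈ Finset.univ.filter (fun a : F => a ≠ 0), h (fl a c) =
        ∑ u ∈ Finset.univ.filter (fun u : F => u ≠ 0), h (e u) := by
      intro c hc
      have hc0 : c ≠ 0 := (Finset.mem_filter.1 hc).2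
      have hfc : f0 c ≠ 0 := fun h => hc0 (hf0 (by rw [h, map_zero]))
      refine Finset.sum_bij' (fun a _ => a * f0 c) (fun u _ => u * (f0 c)⁻¹) ?_ ?_ ?_ ?_ ?_
      · intro a ha
        simp only [Finset.mem_filter, Finset.mem_univ, true_and] at ha ⊢
        exact mul_ne_zero ha hfc
      · intro a ha
        simp only [Finset.mem_filter, Finset.mem_univ, true_and] at ha ⊢
        exact mul_ne_zero ha (inv_ne_zero hfc)
      · intro a _
        rw [mul_assoc, mul_inv_cancel₀ hfc, mul_one]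
      · intro a _
        rw [mul_assoc, inv_mul_cancel₀ hfc, mul_one]
      · intro a _
        rw [hfl]
    rw [Finset.sum_congr rfl h1, Finset.sum_const, nsmul_eq_mul]
    congr 1
    have h2 : (Finset.univ.filter (fun c : L d => c ≠ 0)).card = 2 ^ (d + 1) - 1 := by
      rw [Finset.filter_ne' Finset.univ (0 : L d), Finset.card_erase_of_mem (Finset.mem_univ _)]
      simp
    rw [h2, Nat.cast_sub (Nat.one_le_two_pow)]
    push_cast
    ring
  have hS : ∑ u ∈ Finset.univ.filter (fun u : F => u ≠ 0), h (e u) ≤ ∑ v, h v := by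
    calc ∑ u ∈ Finset.univ.filter (fun u : F => u ≠ 0), h (e u) ≤ ∑ u : F, h (e u) :=
          Finset.sum_le_sum_of_subset_of_nonneg (Finset.filter_subset _ _) fun _ _ _ => h0 _
      _ = ∑ v, h v := Equiv.sum_comp e.toEquiv h
  have hcard : ((Finset.univ.filter (fun a : F => a ≠ 0)).card : ℝ) = 2 ^ (m * d) - 1 := by
    rw [Finset.filter_ne' Finset.univ (0 : F), Finset.card_erase_of_mem (Finset.mem_univ _),
      Finset.card_univ, hcF, Nat.cast_sub Nat.one_le_two_pow]
    push_cast
    ring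
  have hpos : (0 : ℝ) < 2 ^ (m * d) - 1 := by
    have : (1 : ℝ) < 2 ^ (m * d) := one_lt_pow₀ (by norm_num) hN
    linarith
  have hne : (Finset.univ.filter (fun a : F => a ≠ 0)).Nonempty := ⟨1, by simp⟩
  -- some `a` is at most the average
  obtain ⟨a, ha, hle⟩ : ∃ a ∈ Finset.univ.filter (fun a : F => a ≠ 0),
      ∑ c ∈ Finset.univ.filter (fun c : L d => c ≠ 0), h (fl a c) ≤
        ((2 ^ (d + 1) - 1) * ∑ v, h v) / (2 ^ (m * d) - 1) := by
    apply Finset.exists_le_of_sum_le hne
    rw [Finset.sum_const, nsmul_eq_mul, hcard, hsum, mul_div_cancel₀ _ hpos.ne']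
    have : (0 : ℝ) ≤ 2 ^ (d + 1) - 1 := by
      have : (1 : ℝ) ≤ 2 ^ (d + 1) := one_le_pow₀ (by norm_num)
      linarith
    exact mul_le_mul_of_nonneg_left hS this
  have ha0 : a ≠ 0 := (Finset.mem_filter.1 ha).2
  refine ⟨fl a, ?_, ?_⟩
  · intro c c' hcc
    rw [hfl, hfl] at hcc
    exact hf0 (mul_left_cancel₀ ha0 (e.injective hcc))
  · rwa [le_div_iff₀ hpos] at hle

end Pool.Agent.H185.OC
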