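import Mathlib

/-!
# Odd covers of `[n]^d` by odd proper boxes: basic lemmas
-/

set_option autoImplicit false

namespace Pool.Agent.H185.OC

open Finset

/-- `k` odd proper boxes cover every point of `Fin n ^ ι` an odd number of times. -/
def Cov (n : ℕ) (ι : Type) (k : ℕ) : Prop :=
  ∃ P : Fin k → ι → Finset (Fin n),
    (∀ j i, Odd (P j i).card ∧ P j i ≠ Finset.univ) ∧
    ∀ x : ι → Fin n, Odd (Nat.card {j : Fin k // ∀ i, x i ∈ P j i})

theorem cov_of_fintype {n : ℕ} {ι κ : Type} [Fintype κ] (P : κ → ι → Finset (Fin n))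
    (h1 : ∀ j i, Odd (P j i).card ∧ P j i ≠ Finset.univ)
    (h2 : ∀ x : ι → Fin n, Odd (Nat.card {j : κ // ∀ i, x i ∈ P j i})) :
    Cov n ι (Fintype.card κ) := by
  let e := Fintype.equivFin κ
  refine ⟨fun j => P (e.symm j), fun j i => h1 _ i, fun x => ?_⟩
  have : Nat.card {j : Fin (Fintype.card κ) // ∀ i, x i ∈ P (e.symm j) i} =
      Nat.card {j : κ // ∀ i, x i ∈ P j i} :=
    Nat.card_congr (e.symm.subtypeEquiv (fun j => Iff.rfl))
  rw [this]
  exact h2 x

theorem cov_equiv {n : ℕ} {ι ι' : Type} (e : ι ≃ ι') {k : ℕ} (h : Cov n ι k) : Cov n ι' k := by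
  obtain ⟨P, h1, h2⟩ := h
  refine ⟨fun j i => P j (e.symm i), fun j i => h1 j _, fun x => ?_⟩
  have := h2 (fun i => x (e i))
  have hc : Nat.card {j : Fin k // ∀ i, x i ∈ P j (e.symm i)} =
      Nat.card {j : Fin k // ∀ i, x (e i) ∈ P j i} := by
    refine Nat.card_congr (Equiv.subtypeEquivRight fun j => ⟨fun h i => ?_, fun h i => ?_⟩)
    · simpa using h (e i)
    · simpa using h (e.symm i)
  rw [hc]
  exact this

/-- the least number of odd proper boxes which cover every point of `[n]^d` an odd number of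
times -/
noncomputable def g (n d : ℕ) : ℕ := sInf {k | Cov n (Fin d) k}

theorem cov_nonempty (n d : ℕ) (hn : 3 ≤ n) : ∃ k, Cov n (Fin d) k := by
  refine ⟨_, cov_of_fintype (κ := Fin d → Fin n) (fun y i => {y i}) (fun y i => ⟨by simp, ?_⟩)
    fun x => ?_⟩
  · intro h
    have := congrArg Finset.card h
    simp at this
    omega
  · have : Nat.card {y : Fin d → Fin n // ∀ i, x i ∈ ({y i} : Finset (Fin n))} = 1 := by
      rw [Nat.card_eq_one_iff_unique]
      refine ⟨⟨fun a b => ?_⟩, ⟨⟨x, by simp⟩⟩⟩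
      apply Subtype.ext
      funext i
      have ha := a.2 i
      have hb := b.2 i
      simp only [Finset.mem_singleton] at ha hb
      rw [← ha, ← hb]
    rw [this]
    exact odd_one

theorem g_cov (n d : ℕ) (hn : 3 ≤ n) : Cov n (Fin d) (g n d) :=
  Nat.sInf_mem (cov_nonempty n d hn)

theorem g_le {n d k : ℕ} (h : Cov n (Fin d) k) : g n d ≤ k := Nat.sInf_le h

theorem g_cov' (n : ℕ) (hn : 3 ≤ n) (ι : Type) [Fintype ι] : Cov n ι (g n (Fintype.card ι)) :=
  cov_equiv (Fintype.equivFin ι).symm (g_cov n _ hn)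

theorem odd_iff_zmod (k : ℕ) : Odd k ↔ (k : ZMod 2) = 1 := (ZMod.natCast_eq_one_iff_odd).symm

/-- the number of boxes in an odd cover is odd -/
theorem cov_odd {n : ℕ} {k : ℕ} (h : Cov n (Fin 0) k) : Odd k := by
  obtain ⟨P, h1, h2⟩ := h
  have := h2 (fun i => i.elim0)
  have hc : Nat.card {j : Fin k // ∀ i : Fin 0, (fun i : Fin 0 => (i.elim0 : Fin n)) i ∈ P j i} = k := by
    rw [Nat.card_congr (Equiv.subtypeUnivEquiv (fun j => fun i => i.elim0))]
    simp
  rwa [hc] at this

/-! ### the even weight vectors and their boxes -/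

/-- the even weight extension of a vector -/
def ext {m : ℕ} : (Fin m → ZMod 2) →ₗ[ZMod 2] (Fin (m + 1) → ZMod 2) where
  toFun w := Fin.cons (∑ i, w i) w
  map_add' u v := by
    funext x
    refine Fin.cases ?_ (fun i => ?_) x
    · simp [Finset.sum_add_distrib]
    · simp
  map_smul' r v := by
    funext x
    refine Fin.cases ?_ (fun i => ?_) x
    · simp [Finset.mul_sum]
    · simp

theorem ext_zero' {m : ℕ} (w : Fin m → ZMod 2) : ext w 0 = ∑ i, w i := rfl
theorem ext_succ {m : ℕ} (w : Fin m → ZMod 2) (i : Fin m) : ext w i.succ = w i := rfl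

/-- the odd set of a vector: the complement of the support of the extension -/
def B {m : ℕ} (w : Fin m → ZMod 2) : Finset (Fin (m + 1)) :=
  Finset.univ.filter fun x => ext w x = 0

theorem mem_B {m : ℕ} (w : Fin m → ZMod 2) (x : Fin (m + 1)) : x ∈ B w ↔ ext w x = 0 := by
  simp [B]

theorem B_odd {m : ℕ} (hm : Even m) (w : Fin m → ZMod 2) : Odd (B w).card := by
  have h1 : ∑ x, ext w x = 0 := by
    rw [Fin.sum_univ_succ]
    simp only [ext_zero', ext_succ]
    exact CharTwo.add_self_eq_zero _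
  have h2 : ∀ z : ZMod 2, z = if z = 0 then 0 else 1 := by decide
  have h3 : (((Finset.univ.filter fun x => ¬ (ext w x = 0)).card : ℕ) : ZMod 2) = 0 := by
    have h30 : (((Finset.univ.filter fun x => ¬ (ext w x = 0)).card : ℕ) : ZMod 2) =
        ∑ x, ext w x := by
      rw [Finset.card_filter]
      push_cast
      refine Finset.sum_congr rfl fun x _ => ?_
      have h := h2 (ext w x)
      by_cases h' : ext w x = 0
      · simp [h']
      · rw [if_neg h'] at h
        simp [h]
    rw [h30, h1]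
  have h4 : (B w).card + (Finset.univ.filter fun x => ¬ (ext w x = 0)).card = m + 1 := by
    have := Finset.card_filter_add_card_filter_not (s := (Finset.univ : Finset (Fin (m+1))))
      (fun x => ext w x = 0)
    simpa [B] using this
  have h5 : Even (Finset.univ.filter fun x => ¬ (ext w x = 0)).card :=
    (ZMod.natCast_eq_zero_iff_even).1 h3
  have h6 : Odd (m + 1) := hm.add_one
  rw [← h4] at h6
  exact (Nat.odd_add.1 h6).2 h5

theorem B_ne {m : ℕ} {w : Fin m → ZMod 2} (hw : w ≠ 0) : B w ≠ Finset.univ := by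
  intro h
  apply hw
  funext i
  have : i.succ ∈ B w := by rw [h]; exact Finset.mem_univ _
  rw [mem_B, ext_succ] at this
  simpa using this

end Pool.Agent.H185.OC
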