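import Pool.Agent.H185.OC.Basic

set_option autoImplicit false

namespace Pool.Agent.H185.OC

open Finset

/-- the sign of the parity of `|A ∩ R|` -/
noncomputable def sg {n : ℕ} (A R : Finset (Fin n)) : ℤ := (-1) ^ (A ∩ R).card

theorem sum_sg {n : ℕ} (A : Finset (Fin n)) (hA : A.Nonempty) :
    ∑ R : Finset (Fin n), sg A R = 0 := by
  classical
  have h1 : ∀ R : Finset (Fin n), sg A R = ∏ x ∈ R, (if x ∈ A then (-1 : ℤ) else 1) := by
    intro R
    rw [sg, Finset.prod_ite]
    simp only [Finset.prod_const, one_pow, mul_one]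
    congr 2
    ext x
    simp [and_comm]
  have h2 : ∏ x : Fin n, (1 + (if x ∈ A then (-1 : ℤ) else 1)) =
      ∑ R : Finset (Fin n), ∏ x ∈ R, (if x ∈ A then (-1 : ℤ) else 1) := by
    rw [Finset.prod_one_add, Finset.powerset_univ]
  rw [Finset.sum_congr rfl fun R _ => h1 R, ← h2]
  obtain ⟨x, hx⟩ := hA
  apply Finset.prod_eq_zero (Finset.mem_univ x)
  simp [hx]

/-- the odd subsets -/
noncomputable def odds (n : ℕ) : Finset (Finset (Fin n)) :=
  Finset.univ.filter fun R => Odd R.card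

theorem ind (k : ℕ) : (if Odd k then (2 : ℤ) else 0) = 1 - (-1) ^ k := by
  by_cases h : Odd k
  · rw [if_pos h, h.neg_one_pow]; norm_num
  · rw [if_neg h, (Nat.not_odd_iff_even.1 h).neg_one_pow]; norm_num

theorem card_odds (n : ℕ) (hn : 1 ≤ n) : 2 * ((odds n).card : ℤ) = 2 ^ n := by
  classical
  have h1 : 2 * ((odds n).card : ℤ) = ∑ R : Finset (Fin n), (if Odd R.card then (2 : ℤ) else 0) := by
    rw [odds, Finset.card_filter]
    push_cast
    rw [Finset.mul_sum]
    refine Finset.sum_congr rfl fun R _ => ?_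
    by_cases h : Odd R.card <;> simp [h]
  rw [h1, Finset.sum_congr rfl fun R _ => ind _, Finset.sum_sub_distrib]
  have h2 := sum_sg (Finset.univ : Finset (Fin n)) ⟨⟨0, hn⟩, Finset.mem_univ _⟩
  simp only [sg, Finset.univ_inter] at h2
  rw [h2]
  simp

theorem card_odds_inter {n : ℕ} (A : Finset (Fin n)) (hA : A.Nonempty) (hA' : A ≠ Finset.univ) :
    4 * (((odds n).filter fun R => Odd (A ∩ R).card).card : ℤ) = 2 ^ n := by
  classical
  have hn : 1 ≤ n := by
    obtain ⟨x, _⟩ := hA
    exact x.pos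
  have h1 : 4 * (((odds n).filter fun R => Odd (A ∩ R).card).card : ℤ) =
      ∑ R : Finset (Fin n), (if Odd R.card then (2 : ℤ) else 0) *
        (if Odd (A ∩ R).card then (2 : ℤ) else 0) := by
    rw [odds, Finset.filter_filter, Finset.card_filter]
    push_cast
    rw [Finset.mul_sum]
    refine Finset.sum_congr rfl fun R _ => ?_
    by_cases h : Odd R.card <;> by_cases h' : Odd (A ∩ R).card <;> simp [h, h']
  have h2 : ∀ R : Finset (Fin n), (-1 : ℤ) ^ R.card * (-1) ^ (A ∩ R).card = sg Aᶜ R := by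
    intro R
    have h3 : R.card = (A ∩ R).card + (Aᶜ ∩ R).card := by
      rw [← Finset.card_union_of_disjoint]
      · congr 1
        ext x
        simp only [Finset.mem_union, Finset.mem_inter, Finset.mem_compl]
        tauto
      · rw [Finset.disjoint_left]
        intro x hx hx'
        simp only [Finset.mem_inter, Finset.mem_compl] at hx hx'
        exact hx'.1 hx.1
    rw [sg, h3, pow_add]
    have h4 : (-1 : ℤ) ^ (A ∩ R).card * (-1) ^ (A ∩ R).card = 1 := by
      rw [← pow_add, ← two_mul, pow_mul]; norm_num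
    calc _ = ((-1 : ℤ) ^ (A ∩ R).card * (-1) ^ (A ∩ R).card) * (-1) ^ (Aᶜ ∩ R).card := by ring
      _ = _ := by rw [h4, one_mul]
  rw [h1, Finset.sum_congr rfl fun R _ => by rw [ind, ind]]
  have h5 : ∀ R : Finset (Fin n), (1 - (-1 : ℤ) ^ R.card) * (1 - (-1) ^ (A ∩ R).card) =
      1 - sg Finset.univ R - sg A R + sg Aᶜ R := by
    intro R
    rw [← h2 R, sg, sg, Finset.univ_inter]
    ring
  rw [Finset.sum_congr rfl fun R _ => h5 R, Finset.sum_add_distrib, Finset.sum_sub_distrib,
    Finset.sum_sub_distrib, sum_sg _ ⟨⟨0, hn⟩, Finset.mem_univ _⟩, sum_sg A hA, sum_sg Aᶜ]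
  · simp
  · rw [Finset.nonempty_iff_ne_empty]
    intro h
    exact hA' (by simpa using h)

open Classical in
/-- the boxes whose first side meets `R` in an odd number of elements form an odd cover -/
theorem cov_slice {n d k : ℕ} (P : Fin k → Fin (d + 1) → Finset (Fin n))
    (h1 : ∀ j i, Odd (P j i).card ∧ P j i ≠ Finset.univ)
    (h2 : ∀ x : Fin (d + 1) → Fin n, Odd (Nat.card {j : Fin k // ∀ i, x i ∈ P j i}))
    (R : Finset (Fin n)) (hR : Odd R.card) :
    Cov n (Fin d) (Finset.univ.filter fun j : Fin k => Odd (P j 0 ∩ R).card).card := by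
  rw [← Fintype.card_subtype]
  refine cov_of_fintype (fun j i => P j.1 i.succ) (fun j i => h1 _ _) fun x => ?_
  have e1 : ((Nat.card {j : {j : Fin k // Odd (P j 0 ∩ R).card} // ∀ i, x i ∈ P j.1 (Fin.succ i)} : ℕ) :
      ZMod 2) = ∑ j : Fin k, if ∀ i, x i ∈ P j (Fin.succ i) then
        (((P j 0 ∩ R).card : ℕ) : ZMod 2) else 0 := by
    rw [Nat.card_eq_fintype_card, Fintype.card_subtype, Finset.card_filter]
    push_cast
    rw [← Finset.sum_subtype (Finset.univ.filter fun j : Fin k => Odd (P j 0 ∩ R).card) (by simp)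
      (fun j : Fin k => if ∀ i, x i ∈ P j (Fin.succ i) then (1 : ZMod 2) else 0), Finset.sum_filter]
    refine Finset.sum_congr rfl fun j _ => ?_
    by_cases h : Odd (P j 0 ∩ R).card
    · rw [if_pos h, (odd_iff_zmod _).1 h]
    · rw [if_neg h]
      have : (((P j 0 ∩ R).card : ℕ) : ZMod 2) = 0 :=
        (ZMod.natCast_eq_zero_iff_even).2 (Nat.not_odd_iff_even.1 h)
      rw [this]; simp
  have e2 : ∀ y : Fin n, (∑ j : Fin k, if ∀ i, x i ∈ P j (Fin.succ i) then
      (if y ∈ P j 0 then (1 : ZMod 2) else 0) else 0) = 1 := by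
    intro y
    have h3 := h2 (Fin.cons y x)
    rw [odd_iff_zmod, Nat.card_eq_fintype_card, Fintype.card_subtype, Finset.card_filter] at h3
    push_cast at h3
    refine Eq.trans (Finset.sum_congr rfl fun j _ => ?_) h3
    simp only [Fin.forall_fin_succ, Fin.cons_zero, Fin.cons_succ]
    by_cases ha : y ∈ P j 0 <;> by_cases hb : ∀ i, x i ∈ P j (Fin.succ i) <;> simp [ha, hb]
  rw [odd_iff_zmod, e1]
  have e3 : ∑ y ∈ R, (∑ j : Fin k, if ∀ i, x i ∈ P j (Fin.succ i) then
      (if y ∈ P j 0 then (1 : ZMod 2) else 0) else 0) = 1 := by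
    rw [Finset.sum_congr rfl fun y _ => e2 y, Finset.sum_const, nsmul_eq_mul, mul_one]
    exact (odd_iff_zmod _).1 hR
  rw [← e3, Finset.sum_comm]
  refine Finset.sum_congr rfl fun j _ => ?_
  by_cases hb : ∀ i, x i ∈ P j (Fin.succ i)
  · rw [if_pos hb]
    simp only [if_pos hb]
    rw [Finset.sum_boole]
    congr 2
    ext y
    simp [and_comm]
  · simp only [if_neg hb]
    simp

/-- **Lower bound.** If every odd cover of `[n]^d` has at least `M` boxes then every odd cover of
`[n]^(d+1)` by `k` boxes has `k (2^(n-2) - 1) ≥ (2^(n-1) - 1) M`. -/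
theorem lower_step {n d k : ℕ} (hn : 3 ≤ n) (hno : Odd n) (M : ℝ)
    (hM : ∀ k', Cov n (Fin d) k' → M ≤ k') (h : Cov n (Fin (d + 1)) k) :
    (2 ^ (n - 1) - 1) * M ≤ (k : ℝ) * (2 ^ (n - 2) - 1) := by
  classical
  obtain ⟨P, h1, h2⟩ := h
  have hne : ∀ j i, (P j i).Nonempty := by
    intro j i
    rw [← Finset.card_pos]
    exact (h1 j i).1.pos
  -- double count
  have e1 : ∑ R ∈ odds n, ((Finset.univ.filter fun j : Fin k => Odd (P j 0 ∩ R).card).card : ℤ) =
      ∑ j : Fin k, (((odds n).filter fun R => Odd (P j 0 ∩ R).card).card : ℤ) := by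
    simp only [Finset.card_filter]
    push_cast
    exact Finset.sum_comm
  have e2 : 4 * ∑ R ∈ odds n, ((Finset.univ.filter fun j : Fin k =>
      Odd (P j 0 ∩ R).card).card : ℤ) = k * 2 ^ n := by
    rw [e1, Finset.mul_sum, Finset.sum_congr rfl fun j _ =>
      card_odds_inter (P j 0) (hne j 0) (h1 j 0).2]
    simp
  have hu : (Finset.univ : Finset (Fin n)) ∈ odds n := by
    simp [odds, hno]
  have h4 := card_odds n (by omega)
  have e3 : (4 : ℝ) * ∑ R ∈ odds n, ((Finset.univ.filter fun j : Fin k =>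
      Odd (P j 0 ∩ R).card).card : ℝ) = k * 2 ^ n := by exact_mod_cast e2
  have h5 : (2 : ℝ) * ((odds n).card : ℝ) = 2 ^ n := by exact_mod_cast h4
  have e4 : (k : ℝ) + ((odds n).card - 1) * M ≤ ∑ R ∈ odds n, ((Finset.univ.filter fun j : Fin k =>
      Odd (P j 0 ∩ R).card).card : ℝ) := by
    rw [← Finset.add_sum_erase _ _ hu]
    apply add_le_add
    · have : (Finset.univ.filter fun j : Fin k => Odd (P j 0 ∩ Finset.univ).card) = Finset.univ := by
        apply Finset.filter_true_of_mem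
        intro j _
        rw [Finset.inter_univ]
        exact (h1 j 0).1
      rw [this]; simp
    · have h6 : (((odds n).erase Finset.univ).card : ℝ) = (odds n).card - 1 := by
        rw [Finset.card_erase_of_mem hu, Nat.cast_sub (Finset.card_pos.2 ⟨_, hu⟩)]
        simp
      rw [← h6, ← nsmul_eq_mul, ← Finset.sum_const]
      refine Finset.sum_le_sum fun R hR => ?_
      have hRo : Odd R.card := (Finset.mem_filter.1 (Finset.mem_of_mem_erase hR)).2
      have := hM _ (cov_slice P h1 h2 R hRo)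
      convert this using 3
  obtain ⟨r, rfl⟩ : ∃ r, n = r + 2 := ⟨n - 2, by omega⟩
  have h7 : (2 : ℝ) ^ (r + 2) = 4 * 2 ^ r := by ring
  have h8 : (2 : ℝ) ^ (r + 2 - 1) = 2 * 2 ^ r := by
    rw [show r + 2 - 1 = r + 1 by omega]; ring
  have h9 : (2 : ℝ) ^ (r + 2 - 2) = 2 ^ r := by rw [show r + 2 - 2 = r by omega]
  rw [h7] at e3 h5
  rw [h8, h9]
  have h10 : ((odds (r + 2)).card : ℝ) = 2 * 2 ^ r := by linarith
  rw [h10] at e4
  have h11 : ∑ R ∈ odds (r + 2), ((Finset.univ.filter fun j : Fin k =>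
      Odd (P j 0 ∩ R).card).card : ℝ) = k * 2 ^ r := by linarith
  rw [h11] at e4
  linarith

end Pool.Agent.H185.OC
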