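import Pool.Agent.H185.OC.Upper2
import Pool.Agent.H185.OC.Lower

set_option autoImplicit false

namespace Pool.Agent.H185.OC

open Finset Filter

/-- the growth constant -/
noncomputable def gc (n : ℕ) : ℝ := 2 + 1 / (2 ^ (n - 2) - 1)

theorem pow_ge (n : ℕ) (hn : 3 ≤ n) : (2 : ℝ) ≤ 2 ^ (n - 2) := by
  calc (2 : ℝ) = 2 ^ 1 := by norm_num
    _ ≤ 2 ^ (n - 2) := pow_le_pow_right₀ (by norm_num) (by omega)

theorem gc_mul (n : ℕ) (hn : 3 ≤ n) : gc n * (2 ^ (n - 2) - 1) = 2 ^ (n - 1) - 1 := by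
  have h := pow_ge n hn
  have h1 : (2 : ℝ) ^ (n - 2) - 1 ≠ 0 := (by linarith : (0 : ℝ) < 2 ^ (n - 2) - 1).ne'
  have h2 : (2 : ℝ) ^ (n - 1) = 2 * 2 ^ (n - 2) := by
    rw [show n - 1 = (n - 2) + 1 by omega]; ring
  rw [gc, h2]
  field_simp
  ring

theorem gc_pos (n : ℕ) (hn : 3 ≤ n) : 2 < gc n := by
  have h := pow_ge n hn
  have h1 : (0 : ℝ) < 2 ^ (n - 2) - 1 := by linarith
  rw [gc]
  have := one_div_pos.2 h1
  linarith

/-- **Lower bound for every odd cover.** -/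
theorem lower {n : ℕ} (hn : 3 ≤ n) (hno : Odd n) :
    ∀ d k : ℕ, Cov n (Fin d) k → gc n ^ d ≤ k := by
  intro d
  induction d with
  | zero =>
    intro k h
    have := (cov_odd h).pos
    rw [pow_zero]
    exact_mod_cast this
  | succ d ih =>
    intro k h
    have h1 := lower_step hn hno (gc n ^ d) ih h
    have h2 := pow_ge n hn
    have h3 : (0 : ℝ) < 2 ^ (n - 2) - 1 := by linarith
    rw [← gc_mul n hn] at h1
    have h4 : (gc n ^ (d + 1)) * (2 ^ (n - 2) - 1) ≤ (k : ℝ) * (2 ^ (n - 2) - 1) := by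
      rw [pow_succ]
      linarith
    exact le_of_mul_le_mul_right h4 h3

theorem geom (q : ℝ) (hq : 4 ≤ q) (d : ℕ) :
    2 * ∑ j ∈ Finset.range d, ((q - 2) / q) ^ (j + 1) = (q - 2) * (1 - ((q - 2) / q) ^ d) := by
  have hq0 : q ≠ 0 := by positivity
  induction d with
  | zero => simp
  | succ d ih =>
    rw [Finset.sum_range_succ, mul_add, ih, pow_succ]
    field_simp
    ring

/-- **Upper bound.** -/
theorem upper3 {n : ℕ} (hn : 3 ≤ n) (hno : Odd n) (d : ℕ) (hd : 1 ≤ d) :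
    (g n d : ℝ) ≤ (2 ^ (n - 1) - 2) * (d : ℝ) ^ ((1 : ℝ) / ((n : ℝ) - 2)) * gc n ^ d := by
  obtain ⟨m, rfl⟩ : ∃ m, n = m + 1 := ⟨n - 1, by omega⟩
  have hm : 2 ≤ m := by omega
  have hme : Even m := by
    rw [Nat.odd_add_one, Nat.not_odd_iff_even] at hno
    exact hno
  have hq : (4 : ℝ) ≤ 2 ^ m := by
    calc (4 : ℝ) = 2 ^ 2 := by norm_num
      _ ≤ 2 ^ m := pow_le_pow_right₀ (by norm_num) hm
  have hc : gc (m + 1) * (2 ^ m - 2) = 2 * (2 ^ m - 1) := by
    have h := gc_mul (m + 1) hn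
    have h2 : (2 : ℝ) ^ m = 2 * 2 ^ (m + 1 - 2) := by
      rw [← pow_succ']
      congr 1
      omega
    rw [Nat.add_sub_cancel] at h
    rw [← h, h2]
    ring
  have hm2 : (2 : ℝ) ≤ m := by exact_mod_cast hm
  have hs : ((1 : ℝ) / (((m + 1 : ℕ) : ℝ) - 2)) * (m - 1) = 1 := by
    push_cast
    have : (m : ℝ) + 1 - 2 = m - 1 := by ring
    rw [this]
    exact one_div_mul_cancel (by linarith)
  refine (upper2 m hme hm _ _ hc hs d hd).trans ?_
  rw [geom _ hq, Nat.add_sub_cancel]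
  have h1 : 0 ≤ (d : ℝ) ^ ((1 : ℝ) / (((m + 1 : ℕ) : ℝ) - 2)) * gc (m + 1) ^ d := by
    have := gc_pos (m + 1) hn
    positivity
  have h2 : (2 ^ m - 2 : ℝ) * (1 - ((2 ^ m - 2) / 2 ^ m) ^ d) ≤ 2 ^ m - 2 := by
    have h3 : (0 : ℝ) ≤ ((2 ^ m - 2) / 2 ^ m) ^ d := by
      apply pow_nonneg
      apply div_nonneg
      · linarith
      · positivity
    nlinarith
  have h4 := mul_le_mul_of_nonneg_right h2 h1
  rw [← mul_assoc, ← mul_assoc] at h4
  exact h4

/-- **The growth constant.** -/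
theorem tendsto_g {n : ℕ} (hn : 3 ≤ n) (hno : Odd n) :
    Tendsto (fun d : ℕ => ((g n d : ℕ) : ℝ) ^ ((1 : ℝ) / (d : ℝ))) atTop (nhds (gc n)) := by
  have hc2 := gc_pos n hn
  have hc0 : 0 ≤ gc n := by linarith
  set A : ℝ := 2 ^ (n - 1) - 2 with hA
  have hA1 : 0 < A := by
    have h2 : (2 : ℝ) ^ (n - 1) = 2 * 2 ^ (n - 2) := by
      rw [show n - 1 = (n - 2) + 1 by omega]; ring
    have := pow_ge n hn
    rw [hA, h2]
    linarith
  set s : ℝ := (1 : ℝ) / ((n : ℝ) - 2) with hs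
  have hlimA : Tendsto (fun d : ℕ => A ^ ((1 : ℝ) / (d : ℝ))) atTop (nhds 1) := by
    have h1 := tendsto_one_div_atTop_nhds_zero_nat (𝕜 := ℝ)
    have h2 := (Real.continuous_const_rpow hA1.ne').tendsto (0 : ℝ)
    rw [Real.rpow_zero] at h2
    exact h2.comp h1
  have hlimd : Tendsto (fun d : ℕ => ((d : ℝ) ^ ((1 : ℝ) / (d : ℝ))) ^ s) atTop (nhds 1) := by
    have h1 := tendsto_rpow_div.comp (tendsto_natCast_atTop_atTop (R := ℝ))
    have h2 := (Real.continuousAt_rpow_const 1 s (Or.inl one_ne_zero)).tendsto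
    rw [Real.one_rpow] at h2
    exact h2.comp h1
  have hlim : Tendsto (fun d : ℕ => A ^ ((1 : ℝ) / (d : ℝ)) *
      ((d : ℝ) ^ ((1 : ℝ) / (d : ℝ))) ^ s * gc n) atTop (nhds (gc n)) := by
    have := (hlimA.mul hlimd).mul_const (gc n)
    simpa using this
  refine tendsto_of_tendsto_of_tendsto_of_le_of_le' tendsto_const_nhds hlim ?_ ?_
  · filter_upwards [eventually_ge_atTop 1] with d hd
    have hd0 : (d : ℝ) ≠ 0 := by
      have : (0 : ℝ) < (d : ℝ) := by exact_mod_cast hd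
      exact this.ne'
    have h1 := lower hn hno d _ (g_cov n d hn)
    have h2 := Real.rpow_le_rpow (by positivity) h1 (by positivity : (0 : ℝ) ≤ (1 : ℝ) / (d : ℝ))
    rw [← Real.rpow_natCast, ← Real.rpow_mul hc0, mul_one_div_cancel hd0, Real.rpow_one] at h2
    exact h2
  · filter_upwards [eventually_ge_atTop 1] with d hd
    have hd0 : (d : ℝ) ≠ 0 := by
      have : (0 : ℝ) < (d : ℝ) := by exact_mod_cast hd
      exact this.ne'
    have h1 := upper3 hn hno d hd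
    rw [← hs, ← hA] at h1
    have h2 := Real.rpow_le_rpow (by positivity) h1 (by positivity : (0 : ℝ) ≤ (1 : ℝ) / (d : ℝ))
    rw [Real.mul_rpow (by positivity) (by positivity), Real.mul_rpow (by positivity) (by positivity),
      ← Real.rpow_natCast (gc n), ← Real.rpow_mul hc0, mul_one_div_cancel hd0, Real.rpow_one,
      ← Real.rpow_mul (by positivity), mul_comm s, Real.rpow_mul (by positivity)] at h2
    exact h2

end Pool.Agent.H185.OC
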