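import Pool.Agent.H185.OC.Basic

set_option autoImplicit false

namespace Pool.Agent.H185.OC

open Finset

/-- the labels -/
abbrev L (d : ℕ) : Type := Fin (d + 1) → ZMod 2

/-- the ambient space of the code -/
abbrev V (d m : ℕ) : Type := Fin d → Fin m → ZMod 2

/-- the number of zero blocks -/
def zc {d m : ℕ} (v : V d m) : ℕ := (Finset.univ.filter fun i => v i = 0).card

/-- the kernel of a linear map `F₂^(d+1) → F₂^d` has an even number of elements -/
theorem ker_even {d : ℕ} (T : L d →ₗ[ZMod 2] (Fin d → ZMod 2)) :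
    Even (Finset.univ.filter fun c : L d => T c = 0).card := by
  have h1 : Module.finrank (ZMod 2) (LinearMap.ker T) ≠ 0 := by
    intro h0
    have h2 := LinearMap.finrank_range_add_finrank_ker T
    have h3 : Module.finrank (ZMod 2) (LinearMap.range T) ≤ d := by
      have := Submodule.finrank_le (LinearMap.range T)
      simpa using this
    rw [h0] at h2
    simp at h2
    omega
  have h2 : Nat.card (LinearMap.ker T) = 2 ^ Module.finrank (ZMod 2) (LinearMap.ker T) := by
    have := Module.natCard_eq_pow_finrank (K := ZMod 2) (V := LinearMap.ker T)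
    simpa using this
  have h3 : (Finset.univ.filter fun c : L d => T c = 0).card = Nat.card (LinearMap.ker T) := by
    rw [← Fintype.card_subtype, ← Nat.card_eq_fintype_card]
    exact Nat.card_congr (Equiv.subtypeEquivRight fun c => by simp [LinearMap.mem_ker])
  rw [h3, h2]
  exact (even_two.pow_of_ne_zero h1)

/-- the functional attached to a point -/
def T {d m : ℕ} (f : L d →ₗ[ZMod 2] V d m) (x : Fin d → Fin (m + 1)) :
    L d →ₗ[ZMod 2] (Fin d → ZMod 2) :=
  LinearMap.pi fun i => (LinearMap.proj (x i)).comp (ext.comp ((LinearMap.proj i).comp f))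

theorem T_apply {d m : ℕ} (f : L d →ₗ[ZMod 2] V d m) (x : Fin d → Fin (m + 1)) (c : L d)
    (i : Fin d) : T f x c i = ext (f c i) (x i) := rfl

open Classical in
/-- **Step.** A linear code gives an odd cover; the zero blocks are filled by odd covers. -/
theorem step {m d : ℕ} (hm : Even m) (hm2 : 2 ≤ m) (f : L d →ₗ[ZMod 2] V d m) :
    Cov (m + 1) (Fin d) (∑ c ∈ Finset.univ.filter (fun c : L d => c ≠ 0), g (m + 1) (zc (f c))) := by
  have hJ : ∀ c : L d, ∃ Q : Fin (g (m + 1) (zc (f c))) → {i // f c i = 0} → Finset (Fin (m + 1)),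
      (∀ j i, Odd (Q j i).card ∧ Q j i ≠ Finset.univ) ∧
      ∀ x : {i // f c i = 0} → Fin (m + 1), Odd (Nat.card {j // ∀ i, x i ∈ Q j i}) := by
    intro c
    have h := g_cov' (m + 1) (by omega) {i // f c i = 0}
    rw [Fintype.card_subtype] at h
    exact h
  choose Q hQ1 hQ2 using hJ
  let κ := Σ c : {c : L d // c ≠ 0}, Fin (g (m + 1) (zc (f c.1)))
  let P : κ → Fin d → Finset (Fin (m + 1)) := fun p i =>
    if h : f p.1.1 i = 0 then Q p.1.1 p.2 ⟨i, h⟩ else B (f p.1.1 i)
  have hcard : Fintype.card κ =
      ∑ c ∈ Finset.univ.filter (fun c : L d => c ≠ 0), g (m + 1) (zc (f c)) := by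
    simp only [κ, Fintype.card_sigma, Fintype.card_fin]
    exact (Finset.sum_subtype _ (by simp) fun c : L d => g (m + 1) (zc (f c))).symm
  rw [← hcard]
  refine cov_of_fintype P (fun p i => ?_) fun x => ?_
  · by_cases h : f p.1.1 i = 0
    · simp only [P, h, dif_pos]
      exact hQ1 _ _ _
    · simp only [P, h, dif_neg, not_false_iff]
      exact ⟨B_odd hm _, B_ne h⟩
  · -- parity
    have e1 : Nat.card {p : κ // ∀ i, x i ∈ P p i} =
        ∑ c : {c : L d // c ≠ 0}, Nat.card {k : Fin (g (m + 1) (zc (f c.1))) //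
          ∀ i, x i ∈ P ⟨c, k⟩ i} := by
      rw [← Nat.card_sigma]
      refine Nat.card_congr ⟨fun p => ⟨p.1.1, ⟨p.1.2, p.2⟩⟩, fun p => ⟨⟨p.1, p.2.1⟩, p.2.2⟩,
        fun p => rfl, fun p => rfl⟩
    have e2 : ∀ c : {c : L d // c ≠ 0}, ((Nat.card {k : Fin (g (m + 1) (zc (f c.1))) //
          ∀ i, x i ∈ P ⟨c, k⟩ i} : ℕ) : ZMod 2) = if T f x c.1 = 0 then 1 else 0 := by
      intro c
      by_cases hT : T f x c.1 = 0
      · rw [if_pos hT, ← odd_iff_zmod]
        have h1 := hQ2 c.1 (fun i => x i.1)
        have h2 : Nat.card {k : Fin (g (m + 1) (zc (f c.1))) // ∀ i, x i ∈ P ⟨c, k⟩ i} =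
            Nat.card {k // ∀ i : {i // f c.1 i = 0}, x i.1 ∈ Q c.1 k i} := by
          refine Nat.card_congr (Equiv.subtypeEquivRight fun k => ⟨fun h i => ?_, fun h i => ?_⟩)
          · have := h i.1
            simp only [P, i.2, dif_pos] at this
            exact this
          · by_cases hi : f c.1 i = 0
            · simp only [P, hi, dif_pos]
              exact h ⟨i, hi⟩
            · simp only [P, hi, dif_neg, not_false_iff]
              rw [mem_B, ← T_apply, hT]
              rfl
        rw [h2]
        exact h1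
      · rw [if_neg hT]
        have h2 : IsEmpty {k : Fin (g (m + 1) (zc (f c.1))) // ∀ i, x i ∈ P ⟨c, k⟩ i} := by
          refine ⟨fun k => hT ?_⟩
          funext i
          have := k.2 i
          rw [T_apply]
          by_cases hi : f c.1 i = 0
          · rw [hi]; simp
          · simp only [P, hi, dif_neg, not_false_iff] at this
            rw [mem_B] at this
            rw [this]; rfl
        simp
    rw [odd_iff_zmod, e1]
    push_cast
    rw [Finset.sum_congr rfl fun c _ => e2 c]
    have e3 : (∑ c : {c : L d // c ≠ 0}, if T f x c.1 = 0 then (1 : ZMod 2) else 0) =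
        ∑ c ∈ Finset.univ.filter (fun c : L d => c ≠ 0), if T f x c = 0 then (1 : ZMod 2) else 0 := by
      exact (Finset.sum_subtype _ (by simp)
        fun c : L d => if T f x c = 0 then (1 : ZMod 2) else 0).symm
    rw [e3]
    have e4 : (∑ c : L d, if T f x c = 0 then (1 : ZMod 2) else 0) = 0 := by
      have := ker_even (T f x)
      rw [← ZMod.natCast_eq_zero_iff_even, Finset.card_filter] at this
      push_cast at this
      exact this
    have e5 : (∑ c : L d, if T f x c = 0 then (1 : ZMod 2) else 0) =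
        (∑ c ∈ Finset.univ.filter (fun c : L d => c ≠ 0), if T f x c = 0 then (1 : ZMod 2) else 0)
        + ∑ c ∈ Finset.univ.filter (fun c : L d => ¬ (c ≠ 0)),
          if T f x c = 0 then (1 : ZMod 2) else 0 :=
      (Finset.sum_filter_add_sum_filter_not _ _ _).symm
    have e6 : (∑ c ∈ Finset.univ.filter (fun c : L d => ¬ (c ≠ 0)),
          if T f x c = 0 then (1 : ZMod 2) else 0) = 1 := by
      have : (Finset.univ.filter (fun c : L d => ¬ (c ≠ 0))) = {0} := by
        ext c; simp
      rw [this, Finset.sum_singleton, map_zero, if_pos rfl]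
    rw [e6, e4] at e5
    have : ∀ z : ZMod 2, 0 = z + 1 → z = 1 := by decide
    exact this _ e5

end Pool.Agent.H185.OC
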