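import Pool.Agent.H185.OC.Avg

set_option autoImplicit false

namespace Pool.Agent.H185.OC

open Finset

theorem sum_zc (m d : ℕ) (a : ℝ) :
    ∑ v : V d m, a ^ zc v = (a + (2 ^ m - 1)) ^ d := by
  classical
  have h1 : ∀ v : V d m, a ^ zc v = ∏ i, (if v i = 0 then a else 1) := by
    intro v
    rw [zc, Finset.prod_ite]
    simp
  rw [Finset.sum_congr rfl fun v _ => h1 v, ← Fintype.sum_pow (fun w : Fin m → ZMod 2 => if w = 0 then a else 1) d]
  congr 1
  rw [← Finset.add_sum_erase Finset.univ _ (Finset.mem_univ (0 : Fin m → ZMod 2)), if_pos rfl]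
  congr 1
  rw [Finset.sum_congr rfl (g := fun _ => (1 : ℝ))]
  · rw [Finset.sum_const, Finset.card_erase_of_mem (Finset.mem_univ _), nsmul_eq_mul, mul_one]
    rw [Nat.cast_sub (by simp [Nat.one_le_two_pow])]
    simp
  · intro w hw
    rw [if_neg (Finset.ne_of_mem_erase hw)]

/-- **Upper bound.** -/
theorem upper (m : ℕ) (hme : Even m) (hm : 2 ≤ m) (a : ℝ)
    (ha : 2 * (2 ^ m - 1) / (2 ^ m - 2) < a) :
    ∃ K : ℝ, 0 < K ∧ ∀ d : ℕ, (g (m + 1) d : ℝ) ≤ K * a ^ d := by
  classical
  have hq : (4 : ℝ) ≤ 2 ^ m := by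
    calc (4 : ℝ) = 2 ^ 2 := by norm_num
      _ ≤ 2 ^ m := pow_le_pow_right₀ (by norm_num) hm
  set q : ℝ := 2 ^ m with hqdef
  have hq2 : 0 < q - 2 := by linarith
  have ha' : 2 * (q - 1) < a * (q - 2) := by rwa [div_lt_iff₀ hq2] at ha
  have ha2 : 2 < a := by nlinarith
  set r : ℝ := 2 * (a + (q - 1)) / (q * a) with hr
  have hqa : 0 < q * a := by positivity
  have hr1 : r < 1 := by
    rw [hr, div_lt_one hqa]
    nlinarith
  have hr0 : 0 ≤ r := by
    rw [hr]
    apply div_nonneg _ hqa.le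
    nlinarith
  obtain ⟨d0, hd0⟩ : ∃ d0 : ℕ, r ^ d0 < 1 / 4 :=
    exists_pow_lt_of_lt_one (by norm_num) hr1
  have hrd : ∀ d, d0 ≤ d → 4 * r ^ d ≤ 1 := by
    intro d hd
    have : r ^ d ≤ r ^ d0 := pow_le_pow_of_le_one hr0 hr1.le hd
    linarith
  let K : ℝ := 1 + ∑ j ∈ Finset.range (d0 + 1), (g (m + 1) j : ℝ)
  have hK1 : 1 ≤ K := by
    have : 0 ≤ ∑ j ∈ Finset.range (d0 + 1), (g (m + 1) j : ℝ) :=
      Finset.sum_nonneg fun _ _ => Nat.cast_nonneg _
    simp only [K]
    linarith
  refine ⟨K, by linarith, fun d => ?_⟩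
  induction d using Nat.strong_induction_on with
  | _ d ih =>
    by_cases hd : d < d0 + 1
    · have h1 : (g (m + 1) d : ℝ) ≤ K := by
        have : (g (m + 1) d : ℝ) ≤ ∑ j ∈ Finset.range (d0 + 1), (g (m + 1) j : ℝ) :=
          Finset.single_le_sum (f := fun j => (g (m + 1) j : ℝ)) (fun _ _ => Nat.cast_nonneg _)
            (Finset.mem_range.2 hd)
        simp only [K]
        linarith
      have h2 : 1 ≤ a ^ d := one_le_pow₀ (by linarith)
      nlinarith
    · have hd1 : 1 ≤ d := by omega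
      obtain ⟨f, hf, hle⟩ := exists_code m d hm hd1 (fun v => a ^ zc v) (fun v => by positivity)
      rw [sum_zc] at hle
      have h1 := g_le (step hme hm f)
      have h2 : (g (m + 1) d : ℝ) ≤
          ∑ c ∈ Finset.univ.filter (fun c : L d => c ≠ 0), (g (m + 1) (zc (f c)) : ℝ) := by
        exact_mod_cast h1
      have h3 : ∑ c ∈ Finset.univ.filter (fun c : L d => c ≠ 0), (g (m + 1) (zc (f c)) : ℝ) ≤
          K * ∑ c ∈ Finset.univ.filter (fun c : L d => c ≠ 0), a ^ zc (f c) := by
        rw [Finset.mul_sum]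
        refine Finset.sum_le_sum fun c hc => ih _ ?_
        have hc0 : c ≠ 0 := (Finset.mem_filter.1 hc).2
        have hfc : f c ≠ 0 := fun h => hc0 (hf (by rw [h, map_zero]))
        obtain ⟨i, hi⟩ := Function.ne_iff.1 hfc
        have : zc (f c) < (Finset.univ : Finset (Fin d)).card := by
          apply Finset.card_lt_card
          rw [Finset.filter_ssubset]
          exact ⟨i, Finset.mem_univ _, hi⟩
        simpa using this
      have hqd : (2 : ℝ) ^ (m * d) = q ^ d := by rw [pow_mul]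
      rw [hqd] at hle
      have hqd2 : 2 ≤ q ^ d := by
        calc (2 : ℝ) ≤ q ^ 1 := by linarith
          _ ≤ q ^ d := pow_le_pow_right₀ (by linarith) hd1
      have h4 : ∑ c ∈ Finset.univ.filter (fun c : L d => c ≠ 0), a ^ zc (f c) ≤ a ^ d := by
        have hpos : 0 < q ^ d - 1 := by linarith
        rw [← le_div_iff₀ hpos] at hle
        refine hle.trans ?_
        rw [div_le_iff₀ hpos]
        have hapos : 0 < a + (q - 1) := by linarith
        have h5 : (2 ^ (d + 1) - 1) * (a + (q - 1)) ^ d ≤ 2 * (2 * (a + (q - 1))) ^ d := by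
          rw [mul_pow, pow_succ]
          have : 0 ≤ (a + (q - 1)) ^ d := by positivity
          nlinarith
        have h6 : (2 * (a + (q - 1))) ^ d = r ^ d * (q * a) ^ d := by
          rw [← mul_pow, hr, div_mul_cancel₀ _ hqa.ne']
        have h7 := hrd d (by omega)
        have h8 : a ^ d * (q ^ d / 2) ≤ a ^ d * (q ^ d - 1) := by
          apply mul_le_mul_of_nonneg_left _ (by positivity)
          linarith
        refine h5.trans (le_trans ?_ h8)
        rw [h6, mul_pow]
        have h9 : 0 < q ^ d * a ^ d := by positivity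
        nlinarith
      calc (g (m + 1) d : ℝ) ≤ _ := h2
        _ ≤ _ := h3
        _ ≤ K * a ^ d := mul_le_mul_of_nonneg_left h4 (by linarith)

end Pool.Agent.H185.OC
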