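import Pool.Agent.H185.OC.Upper

set_option autoImplicit false

namespace Pool.Agent.H185.OC

open Finset

theorem sum_zc_mul (m d : ℕ) (a : ℝ) :
    ∑ v : V d m, a ^ zc v * (zc v : ℝ) = d * a * (a + (2 ^ m - 1)) ^ (d - 1) := by
  have e : (fun a : ℝ => ∑ v : V d m, a ^ zc v) = fun a => (a + (2 ^ m - 1)) ^ d :=
    funext (sum_zc m d)
  have h1 : HasDerivAt (fun a : ℝ => ∑ v : V d m, a ^ zc v)
      (∑ v : V d m, (zc v : ℝ) * a ^ (zc v - 1)) a :=
    HasDerivAt.fun_sum fun v _ => hasDerivAt_pow _ _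
  have h2 : HasDerivAt (fun a : ℝ => (a + (2 ^ m - 1)) ^ d)
      (d * (a + (2 ^ m - 1)) ^ (d - 1)) a := by
    have h3 : HasDerivAt (fun a : ℝ => a + ((2 : ℝ) ^ m - 1)) 1 a :=
      (hasDerivAt_id a).add_const _
    simpa using h3.fun_pow d
  rw [e] at h1
  have h3 := h1.unique h2
  calc ∑ v : V d m, a ^ zc v * (zc v : ℝ)
      = a * ∑ v : V d m, (zc v : ℝ) * a ^ (zc v - 1) := by
        rw [Finset.mul_sum]
        refine Finset.sum_congr rfl fun v _ => ?_
        rcases Nat.eq_zero_or_pos (zc v) with h | h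
        · rw [h]; simp
        · obtain ⟨k, hk⟩ : ∃ k, zc v = k + 1 := ⟨zc v - 1, by omega⟩
          rw [hk, Nat.add_sub_cancel, pow_succ]
          ring
    _ = d * a * (a + (2 ^ m - 1)) ^ (d - 1) := by
        rw [h3]; ring

theorem jensen (m d : ℕ) (hd : 1 ≤ d) (a s : ℝ) (ha : 0 < a) (hs0 : 0 ≤ s) (hs1 : s ≤ 1) :
    ∑ v : V d m, a ^ zc v * (zc v : ℝ) ^ s ≤
      (a + (2 ^ m - 1)) ^ d * (d * (a / (a + (2 ^ m - 1)))) ^ s := by
  have hq : (1 : ℝ) ≤ 2 ^ m := one_le_pow₀ (by norm_num)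
  set b : ℝ := a + (2 ^ m - 1) with hb
  have hb0 : 0 < b := by linarith
  have hS : 0 < b ^ d := by positivity
  have h := (Real.concaveOn_rpow hs0 hs1).le_map_sum (t := (Finset.univ : Finset (V d m)))
    (w := fun v => a ^ zc v / b ^ d) (p := fun v => (zc v : ℝ))
    (fun v _ => by positivity)
    (by rw [← Finset.sum_div, sum_zc, ← hb, div_self hS.ne'])
    (fun v _ => by simp)
  simp only [smul_eq_mul] at h
  have e1 : ∑ v : V d m, a ^ zc v / b ^ d * (zc v : ℝ) ^ s =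
      (∑ v : V d m, a ^ zc v * (zc v : ℝ) ^ s) / b ^ d := by
    rw [Finset.sum_div]
    exact Finset.sum_congr rfl fun v _ => by ring
  have e2 : ∑ v : V d m, a ^ zc v / b ^ d * (zc v : ℝ) = d * (a / b) := by
    have : ∑ v : V d m, a ^ zc v / b ^ d * (zc v : ℝ) =
        (∑ v : V d m, a ^ zc v * (zc v : ℝ)) / b ^ d := by
      rw [Finset.sum_div]
      exact Finset.sum_congr rfl fun v _ => by ring
    rw [this, sum_zc_mul, ← hb]
    obtain ⟨k, rfl⟩ : ∃ k, d = k + 1 := ⟨d - 1, by omega⟩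
    rw [Nat.add_sub_cancel, pow_succ]
    field_simp
  rw [e1, e2, div_le_iff₀ hS] at h
  linarith

theorem g_zero (n : ℕ) (hn : 3 ≤ n) : g n 0 = 1 := by
  have h1 : Odd (g n 0) := cov_odd (g_cov n 0 hn)
  have h2 : Cov n (Fin 0) 1 := by
    refine ⟨fun _ i => i.elim0, fun _ i => i.elim0, fun x => ?_⟩
    have : Nat.card {j : Fin 1 // ∀ i : Fin 0, x i ∈ (i.elim0 : Finset (Fin n))} = 1 := by
      rw [Nat.card_congr (Equiv.subtypeUnivEquiv (fun j => fun i => i.elim0))]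
      simp
    rw [this]
    exact odd_one
  have h3 := g_le h2
  have h4 := h1.pos
  omega

/-- **Explicit upper bound.** -/
theorem upper2 (m : ℕ) (hme : Even m) (hm : 2 ≤ m) (c s : ℝ)
    (hc : c * (2 ^ m - 2) = 2 * (2 ^ m - 1)) (hs : s * (m - 1) = 1) :
    ∀ d : ℕ, 1 ≤ d → (g (m + 1) d : ℝ) ≤
      (2 * ∑ j ∈ Finset.range d, ((2 ^ m - 2) / 2 ^ m : ℝ) ^ (j + 1)) * (d : ℝ) ^ s * c ^ d := by
  classical
  have hq : (4 : ℝ) ≤ 2 ^ m := by
    calc (4 : ℝ) = 2 ^ 2 := by norm_num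
      _ ≤ 2 ^ m := pow_le_pow_right₀ (by norm_num) hm
  have hm2 : (2 : ℝ) ≤ m := by exact_mod_cast hm
  have hs0 : 0 < s := by
    by_contra h
    push Not at h
    nlinarith
  have hs1 : s ≤ 1 := by
    by_contra h
    push Not at h
    nlinarith
  -- `2 (2/q)^s = 1`
  have hqs : 2 * ((2 : ℝ) / 2 ^ m) ^ s = 1 := by
    have e1 : (2 : ℝ) / 2 ^ m = 2 ^ (1 - (m : ℝ)) := by
      rw [Real.rpow_sub (by norm_num), Real.rpow_one, Real.rpow_natCast]
    rw [e1, ← Real.rpow_mul (by norm_num)]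
    have e2 : (1 - (m : ℝ)) * s = -1 := by linarith
    rw [e2, Real.rpow_neg_one]
    norm_num
  set q : ℝ := 2 ^ m with hqdef
  have hq2 : 0 < q - 2 := by linarith
  have hc0 : 0 < c := by
    by_contra h
    push Not at h
    nlinarith
  set p : ℝ := (q - 2) / q with hp
  have hp0 : 0 < p := by positivity
  have hcp : 2 * (q - 1) / q = c * p := by
    rw [hp, ← mul_div_assoc, hc]
  have hcq : 2 * (c + (q - 1)) / q = c := by
    rw [div_eq_iff (by positivity)]
    linarith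
  have hcq0 : c + (q - 1) ≠ 0 := (by linarith : (0 : ℝ) < c + (q - 1)).ne'
  have hcq' : c / (c + (q - 1)) = 2 / q := by
    rw [div_eq_div_iff hcq0 (by positivity)]
    rw [div_eq_iff (by positivity)] at hcq
    linarith
  obtain ⟨K, hK⟩ : ∃ K : ℕ → ℝ, ∀ d, K d = 2 * ∑ j ∈ Finset.range d, p ^ (j + 1) :=
    ⟨_, fun _ => rfl⟩
  have hK0 : ∀ d, 0 ≤ K d := fun d => by rw [hK]; positivity
  have hKm : ∀ k d, k ≤ d → K k ≤ K d := by
    intro k d hkd
    rw [hK, hK]
    have : ∑ j ∈ Finset.range k, p ^ (j + 1) ≤ ∑ j ∈ Finset.range d, p ^ (j + 1) :=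
      Finset.sum_le_sum_of_subset_of_nonneg (Finset.range_subset_range.2 hkd)
        fun _ _ _ => by positivity
    linarith
  have hKs : ∀ d, K (d + 1) = K d + 2 * p ^ (d + 1) := by
    intro d
    rw [hK, hK, Finset.sum_range_succ]
    ring
  intro d
  rw [← hK]
  clear hK
  induction d using Nat.strong_induction_on with
  | _ d ih =>
    intro hd
    obtain ⟨e, rfl⟩ : ∃ e, d = e + 1 := ⟨d - 1, by omega⟩
    obtain ⟨h, hh⟩ : ∃ h : V (e + 1) m → ℝ, ∀ v, h v = if v = 0 then 0 else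
      (if zc v = 0 then 1 else 0) + K e * (c ^ zc v * (zc v : ℝ) ^ s) := ⟨_, fun _ => rfl⟩
    have hh0 : ∀ v, 0 ≤ h v := by
      intro v
      rw [hh]
      split_ifs
      · exact le_rfl
      · have := hK0 e
        positivity
      · have := hK0 e
        positivity
    obtain ⟨f, hf, hle⟩ := exists_code m (e + 1) hm hd h hh0
    have h1 := g_le (step hme hm f)
    have h2 : (g (m + 1) (e + 1) : ℝ) ≤
        ∑ c ∈ Finset.univ.filter (fun c : L (e + 1) => c ≠ 0), (g (m + 1) (zc (f c)) : ℝ) := by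
      exact_mod_cast h1
    have h3 : ∑ c ∈ Finset.univ.filter (fun c : L (e + 1) => c ≠ 0), (g (m + 1) (zc (f c)) : ℝ) ≤
        ∑ c ∈ Finset.univ.filter (fun c : L (e + 1) => c ≠ 0), h (f c) := by
      refine Finset.sum_le_sum fun x hx => ?_
      have hx0 : x ≠ 0 := (Finset.mem_filter.1 hx).2
      have hfx : f x ≠ 0 := fun h => hx0 (hf (by rw [h, map_zero]))
      obtain ⟨i, hi⟩ := Function.ne_iff.1 hfx
      have hz : zc (f x) < e + 1 := by
        have : zc (f x) < (Finset.univ : Finset (Fin (e + 1))).card := by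
          apply Finset.card_lt_card
          rw [Finset.filter_ssubset]
          exact ⟨i, Finset.mem_univ _, hi⟩
        simpa using this
      rw [hh, if_neg hfx]
      by_cases h0 : zc (f x) = 0
      · rw [h0, g_zero _ (by omega), if_pos rfl]
        have := hK0 e
        have h5 : 0 ≤ K e * (c ^ 0 * ((0 : ℕ) : ℝ) ^ s) := by positivity
        push_cast at h5 ⊢
        linarith
      · rw [if_neg h0, zero_add]
        refine (ih _ hz (by omega)).trans ?_
        have h5 := hKm (zc (f x)) e (by omega)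
        have h6 : 0 ≤ c ^ zc (f x) * (zc (f x) : ℝ) ^ s := by positivity
        nlinarith
    have h4 : ∑ v, h v ≤ (q - 1) ^ (e + 1) +
        K e * ((c + (q - 1)) ^ (e + 1) * (((e + 1 : ℕ) : ℝ) * (c / (c + (q - 1)))) ^ s) := by
      have h5 : ∑ v, h v ≤ ∑ v : V (e + 1) m, ((0 : ℝ) ^ zc v + K e * (c ^ zc v * (zc v : ℝ) ^ s)) := by
        refine Finset.sum_le_sum fun v _ => ?_
        rw [hh]
        have := hK0 e
        split_ifs with h6 h7
        · positivity
        · rw [h7, pow_zero, pow_zero]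
        · rw [zero_pow h7]
      refine h5.trans ?_
      rw [Finset.sum_add_distrib, ← Finset.mul_sum, sum_zc]
      have h6 := jensen m (e + 1) hd c s hc0 hs0.le hs1
      have h7 := mul_le_mul_of_nonneg_left h6 (hK0 e)
      simp only [zero_add]
      linarith
    have hqd : (2 : ℝ) ^ (m * (e + 1)) = q ^ (e + 1) := by rw [pow_mul]
    rw [hqd] at hle
    have hqd2 : (2 : ℝ) ^ (e + 1 + 1) ≤ q ^ (e + 1) := by
      calc (2 : ℝ) ^ (e + 1 + 1) ≤ 2 ^ (2 * (e + 1)) :=
            pow_le_pow_right₀ (by norm_num) (by omega)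
        _ = 4 ^ (e + 1) := by rw [pow_mul]; norm_num
        _ ≤ q ^ (e + 1) := pow_le_pow_left₀ (by norm_num) hq _
    have hpos : 0 < q ^ (e + 1) - 1 := by
      have : (2 : ℝ) ≤ 2 ^ (e + 1 + 1) := by
        calc (2 : ℝ) = 2 ^ 1 := by norm_num
          _ ≤ 2 ^ (e + 1 + 1) := pow_le_pow_right₀ (by norm_num) (by omega)
      linarith
    have hqp : 0 < q ^ (e + 1) := by positivity
    have hSn : 0 ≤ ∑ v, h v := Finset.sum_nonneg fun v _ => hh0 v
    have h8 : ∑ c ∈ Finset.univ.filter (fun c : L (e + 1) => c ≠ 0), h (f c) ≤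
        2 ^ (e + 1 + 1) / q ^ (e + 1) * ∑ v, h v := by
      rw [← le_div_iff₀ hpos] at hle
      refine hle.trans ?_
      rw [div_le_iff₀ hpos, div_mul_eq_mul_div, div_mul_eq_mul_div, le_div_iff₀ hqp]
      have : (2 ^ (e + 1 + 1) - 1) * q ^ (e + 1) ≤ 2 ^ (e + 1 + 1) * (q ^ (e + 1) - 1) := by
        linarith
      nlinarith
    have h9 : 2 ^ (e + 1 + 1) / q ^ (e + 1) * ((q - 1) ^ (e + 1) +
        K e * ((c + (q - 1)) ^ (e + 1) * (((e + 1 : ℕ) : ℝ) * (c / (c + (q - 1)))) ^ s)) =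
        2 * (c * p) ^ (e + 1) + K e * (c ^ (e + 1) * (((e + 1 : ℕ) : ℝ)) ^ s) := by
      have h10 : ((2 : ℝ) / q) ^ s = 1 / 2 := by linarith
      have h9' : ∀ X : ℝ, 2 ^ (e + 1 + 1) / q ^ (e + 1) * ((q - 1) ^ (e + 1) +
          K e * ((c + (q - 1)) ^ (e + 1) * (X * (1 / 2)))) =
          2 * (2 * (q - 1) / q) ^ (e + 1) +
            K e * ((2 * (c + (q - 1)) / q) ^ (e + 1) * X) := by
        intro X
        rw [div_pow, div_pow, mul_pow, mul_pow, pow_succ 2 (e + 1)]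
        field_simp
      rw [hcq', Real.mul_rpow (by positivity) (by positivity), h10, h9', hcp, hcq]
    have h11 : 2 ^ (e + 1 + 1) / q ^ (e + 1) * ∑ v, h v ≤
        2 * (c * p) ^ (e + 1) + K e * (c ^ (e + 1) * (((e + 1 : ℕ) : ℝ)) ^ s) := by
      rw [← h9]
      exact mul_le_mul_of_nonneg_left h4 (by positivity)
    have h12 : (1 : ℝ) ≤ (((e + 1 : ℕ) : ℝ)) ^ s := by
      apply Real.one_le_rpow _ hs0.le
      exact_mod_cast hd
    rw [hKs]
    refine h2.trans (h3.trans (h8.trans (h11.trans ?_)))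
    rw [mul_pow]
    have h13 : 0 ≤ c ^ (e + 1) * p ^ (e + 1) := by positivity
    nlinarith

end Pool.Agent.H185.OC
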